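import Pool.Agent.Y712.AJ.Defs

/-!
# Quotients of products and the kernels of Abel–Jacobi maps: definitions
-/

open CategoryTheory AlgebraicGeometry Finset

universe u v w w' x x'

namespace Pool.Agent.Y112.QA

open Pool.Agent.H914 Pool.Agent.H914.VarClass Pool.Agent.H914.VarClass.Obj Pool.Agent.W492.BB
  Pool.Agent.TH133 Pool.Agent.W550.Corr Pool.Agent.Y712.AJ

variable {k : Type u} [Field k] {𝒱 : VarClass k}

/-- An action of the group `G` on the variety `X`. -/
structure GAct (G : Type) [Group G] (X : 𝒱.Obj) where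
  /-- the automorphism given by `g` -/
  hom : G → (X ⟶ X)
  hom_one : hom 1 = 𝟙 X
  hom_mul : ∀ g h, hom (g * h) = hom h ≫ hom g

variable {C : TheoryData.{u, v, 0} 𝒱 ℚ} {X Y Z : 𝒱.Obj} {G : Type} [Group G] [Fintype G]

/-- The diagonal action of `g` on `X × Y`. -/
noncomputable def bi (ρ : GAct G X) (σ : GAct G Y) (g : G) : X.prod Y ⟶ X.prod Y :=
  prodMap (ρ.hom g) (σ.hom g)

/-- The motive of `Z` contains the `G`-invariants of the motive of `X × Y`: there are
correspondences `a` from `X × Y` to `Z` and `b` from `Z` to `X × Y`, both of degree zero, such that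
`b_* a_* c` is the sum of the `g^* c`, for all classes `c` on `X × Y`. -/
def ContainsInvariants (C : TheoryData.{u, v, 0} 𝒱 ℚ) (ρ : GAct G X) (σ : GAct G Y) (Z : 𝒱.Obj) :
    Prop :=
  ∃ (a : C.A ((X.prod Y).prod Z)) (b : C.A (Z.prod (X.prod Y))),
    C.Deg (X.prod Y).dim a ∧ C.Deg Z.dim b ∧
      ∀ c, C.act b (C.act a c) = ∑ g, C.up (bi ρ σ g) c

/-- `π : X × Y ⟶ Z` has the formal properties of a quotient by the diagonal action of `G`. -/
structure IsQuotient (C : TheoryData.{u, v, 0} 𝒱 ℚ) (ρ : GAct G X) (σ : GAct G Y)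
    (π : X.prod Y ⟶ Z) : Prop where
  invariant : ∀ g, bi ρ σ g ≫ π = π
  dim_eq : (X.prod Y).dim = Z.dim
  up_down : ∀ c, C.up π (C.down π c) = ∑ g, C.up (bi ρ σ g) c
  down_up : ∀ z, C.down π (C.up π z) = (Fintype.card G : ℚ) • z

/-- The function `q` on `G` is a matrix coefficient of the representation of `G` on the classes of
codimension `j` on `Y` modulo numerical equivalence: `q g` is the intersection number
`deg (g^* y · y')` for some classes `y` of codimension `j` and `y'` of dimension `j`. -/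
def IsCoefficient (C : TheoryData.{u, v, 0} 𝒱 ℚ) (σ : GAct G Y) (j : ℕ) (q : G → ℚ) : Prop :=
  ∃ y y' : C.A Y, C.Deg j y ∧ C.Deg ((Y.dim : ℤ) - j) y' ∧
    ∀ g, HasDegree C (C.mul (C.up (σ.hom g) y) y') (q g)

/-- The group `G` moves some class of codimension `j` on `Y` freely: there is a class `y` of
codimension `j` such that the classes `g^* y`, for `g` in `G`, are linearly independent modulo
numerical equivalence. -/
def HasFreeClass (C : TheoryData.{u, v, 0} 𝒱 ℚ) (σ : GAct G Y) (j : ℕ) : Prop :=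
  ∃ y : C.A Y, C.Deg j y ∧ ∀ c : G → ℚ,
    (∀ y' : C.A Y, C.Deg ((Y.dim : ℤ) - j) y' →
      HasDegree C (C.mul (∑ g, c g • C.up (σ.hom g) y) y') 0) → c = 0

/-- The diagonal of `Y` is decomposed: `[Δ_Y]` is a sum of products `e s × f s`, with `f s` of
codimension `r s` and `e s` of dimension `r s`. -/
def DecomposedDiagonal (C : TheoryData.{u, v, 0} 𝒱 ℚ) (Y : 𝒱.Obj) : Prop :=
  ∃ (n : ℕ) (r : Fin n → ℕ) (e f : Fin n → C.A Y),
    (∀ s, r s ≤ Y.dim ∧ C.Deg (r s) (f s) ∧ C.Deg ((Y.dim : ℤ) - r s) (e s)) ∧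
    dg C Y = ∑ s, C.ext (e s) (f s)

section AJ

variable {K : Type w} [Field K] (H : WeilTheoryData.{u, v, w} C K) (T : AJData.{u, v, w'} C)

/-- The Abel–Jacobi map in codimension `i` is injective on the part of `X` which belongs to the
representation of `G` on the classes of codimension `j` on `Y`: for the homologically trivial classes
`x` of codimension `i` on `X` with Abel–Jacobi image zero, and all the matrix coefficients `q` of
this representation, the sum of the `q g • g^* x` is zero. -/
def InjectiveOnPart (ρ : GAct G X) (σ : GAct G Y) (i j : ℕ) : Prop :=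
  ∀ x : C.A X, AJTrivial H T i x → ∀ q : G → ℚ, IsCoefficient C σ j q →
    ∑ g, q g • C.up (ρ.hom g) x = 0

variable {K' : Type x} [Field K'] (H' : WeilTheoryData.{u, v, x} C K') (T' : AJData.{u, v, x'} C)

/-- The kernel of the Abel–Jacobi map `T` of `X` in codimension `i` is contained in the kernel of the
Abel–Jacobi map `T'`. -/
def KerLeIn (X : 𝒱.Obj) (i : ℕ) : Prop := ∀ x : C.A X, AJTrivial H T i x → AJTrivial H' T' i x

/-- The same on the part of `X` which belongs to the representation of `G` on the classes of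
codimension `j` on `Y`. -/
def KerLeOnPart (ρ : GAct G X) (σ : GAct G Y) (i j : ℕ) : Prop :=
  ∀ x : C.A X, AJTrivial H T i x → ∀ q : G → ℚ, IsCoefficient C σ j q →
    AJTrivial H' T' i (∑ g, q g • C.up (ρ.hom g) x)

end AJ

end Pool.Agent.Y112.QA
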