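import Pool.Agent.Y112.QA.Defs
import Pool.Agent.Y712.AJ.Main
import Pool.Agent.TH133.Ext

/-!
# Quotients of products and the kernels of Abel–Jacobi maps
-/

open CategoryTheory AlgebraicGeometry Finset

universe u v w w' x x'

namespace Pool.Agent.Y112.QA

open Pool.Agent.H914 Pool.Agent.H914.VarClass Pool.Agent.H914.VarClass.Obj Pool.Agent.W492.BB
  Pool.Agent.TH133 Pool.Agent.W550.Corr Pool.Agent.Y712.AJ Pool.Agent.Y101.Aq

set_option linter.unusedSectionVars false

variable {k : Type u} [Field k] {𝒱 : VarClass k} {C : TheoryData.{u, v, 0} 𝒱 ℚ}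
  {X Y Z : 𝒱.Obj} {G : Type} [Group G] [Fintype G]

section gen

variable [hC : IsChowProj C]

include hC

lemma act_mem_fam {I : Family C} (hI : IsAdequate I) {a : C.A (X.prod Y)} (ha : C.Deg X.dim a)
    {i : ℕ} {x : C.A X} (hx : x ∈ I X i) : C.act a x ∈ I Y i := by
  have h1 : C.up (fst X Y) x ∈ I (X.prod Y) i := hI.pull _ hx
  have h2 : C.mul (C.up (fst X Y) x) a ∈ I (X.prod Y) (i + X.dim) :=
    hI.mul h1 (by exact_mod_cast ha)
  have h3 := hI.push (snd X Y) (i := i + X.dim) (j := i) (by rw [dim_prod]; ring) h2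
  have e : C.mul (C.up (fst X Y) x) a = a * C.pull (fst X Y) x := ch_comm C _ _
  rw [e] at h3
  exact h3

lemma ext_mem_fam {I : Family C} (hI : IsAdequate I) {i j : ℕ} {x : C.A X} (hx : x ∈ I X i)
    {y : C.A Y} (hy : C.Deg j y) : C.ext x y ∈ I (X.prod Y) (i + j) :=
  hI.mul (hI.pull _ hx) (C.pull_mem _ hy)

/-- The push-forward to `X` of `(x × y) · (X × y')`. -/
lemma push_ext_mul (x : C.A X) (y y' : C.A Y) {q : ℚ} (h : HasDegree C (y * y') q) :
    C.push (fst X Y) (C.ext x y * C.pull (snd X Y) y') = q • x := by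
  have h1 := (h X).2
  rw [TheoryData.ext, mul_assoc, ← map_mul, C.proj_left, h1, mul_smul_comm, mul_one]

lemma comp_ext (w : C.A (X.prod Y)) (e f : C.A Y) :
    C.comp w (C.ext e f) = C.ext (C.push (fst X Y) (C.pull (snd X Y) e * w)) f := by
  have h1 : C.pull (t23 X Y Y) (C.ext e f) * C.pull (fst (X.prod Y) Y) w =
      C.pull (fst (X.prod Y) Y) (C.pull (snd X Y) e * w) *
        C.pull (t13 X Y Y) (C.pull (snd X Y) f) := by
    rw [TheoryData.ext, map_mul, map_mul, ← C.pull_comp, ← C.pull_comp, ← C.pull_comp,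
      ← C.pull_comp, t23_fst, t23_snd, t13_snd]
    rw [mul_assoc, mul_assoc, ch_comm C (C.pull (snd (X.prod Y) Y) f)]
  rw [TheoryData.comp, h1, C.proj_right, TheoryData.ext]
  rw [C.base_fst (fst X Y) Y]
  rfl

lemma hasDegree_neq {v x : C.A X} {i : ℤ} (h : C.Deg i (v * x)) (hi : i ≠ X.dim) :
    HasDegree C (v * x) 0 := by
  rcases lt_or_gt_of_ne hi with h1 | h1
  · intro Y
    rw [zero_smul]
    have hn : i - X.dim < 0 := by omega
    constructor
    · have h2 := C.push_mem (snd X Y) (C.pull_mem (fst X Y) h)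
      have e1 : i + 1 * ((Y.dim : ℤ) - (X.prod Y).dim) = i - X.dim := by
        rw [dim_prod]; push_cast; ring
      rw [e1, C.gr_neg Y _ hn] at h2
      exact (Submodule.mem_bot ℚ).1 h2
    · have h2 := C.push_mem (fst Y X) (C.pull_mem (snd Y X) h)
      have e1 : i + 1 * ((Y.dim : ℤ) - (Y.prod X).dim) = i - X.dim := by
        rw [dim_prod]; push_cast; ring
      rw [e1, C.gr_neg Y _ hn] at h2
      exact (Submodule.mem_bot ℚ).1 h2
  · rw [hC.gr_top X i _ h h1]
    exact hasDegree_zero (C := C) (X := X)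

/-- The comparison of two adequate relations on `Z` implies their comparison on the part of `X` which
belongs to the classes of codimension `j` on `Y`. -/
theorem part_of_contains {I J : Family C} (hI : IsAdequate I) (hJ : IsAdequate J) {ρ : GAct G X}
    {σ : GAct G Y} (hZ : ContainsInvariants C ρ σ Z) {i j : ℕ}
    (h0 : ∀ z ∈ I Z (i + j), z ∈ J Z (i + j))
    {x : C.A X} (hx : x ∈ I X i) {q : G → ℚ} (hq : IsCoefficient C σ j q) :
    ∑ g, q g • C.up (ρ.hom g) x ∈ J X i := by
  obtain ⟨a, b, ha, hb, hab⟩ := hZ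
  obtain ⟨y, y', hy, hy', hd⟩ := hq
  have h1 : C.ext x y ∈ I (X.prod Y) (i + j) := ext_mem_fam hI hx hy
  have h2 : C.act b (C.act a (C.ext x y)) ∈ J (X.prod Y) (i + j) :=
    act_mem_fam hJ hb (h0 _ (act_mem_fam hI ha h1))
  have h4 : ∀ g, C.up (bi ρ σ g) (C.ext x y) = C.ext (C.up (ρ.hom g) x) (C.up (σ.hom g) y) :=
    fun g => pull_ext C _ _ _ _
  have h5 : ∑ g, q g • C.up (ρ.hom g) x =
      C.push (fst X Y) (C.act b (C.act a (C.ext x y)) * C.pull (snd X Y) y') := by
    rw [hab, Finset.sum_mul, map_sum]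
    refine Finset.sum_congr rfl fun g _ => ?_
    rw [h4 g, push_ext_mul _ _ _ (hd g)]
  rw [h5]
  by_cases hj : j ≤ Y.dim
  · have h6 : C.Deg ((Y.dim - j : ℕ) : ℤ) (C.up (snd X Y) y') := by
      rw [Nat.cast_sub hj]
      exact C.pull_mem _ hy'
    exact hJ.push (fst X Y) (i := i + j + (Y.dim - j)) (j := i) (by rw [dim_prod]; omega)
      (hJ.mul h2 h6)
  · have h6 : y' = 0 := by
      have h7 : y' ∈ C.gr Y ((Y.dim : ℤ) - j) := hy'
      rw [C.gr_neg Y _ (by omega)] at h7
      exact (Submodule.mem_bot ℚ).1 h7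
    rw [h6, map_zero, mul_zero, map_zero]
    exact Submodule.zero_mem _

/-- The converse for quotients of products with a variety with decomposed diagonal. -/
theorem of_parts {I J : Family C} (hI : IsAdequate I) (hJ : IsAdequate J) {ρ : GAct G X}
    {σ : GAct G Y} {π : X.prod Y ⟶ Z} (hπ : IsQuotient C ρ σ π) (hY : DecomposedDiagonal C Y) {m : ℕ}
    (h : ∀ i j : ℕ, i + j = m → ∀ x ∈ I X i, ∀ q : G → ℚ, IsCoefficient C σ j q →
      ∑ g, q g • C.up (ρ.hom g) x ∈ J X i) : ∀ z ∈ I Z m, z ∈ J Z m := by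
  intro z hz
  obtain ⟨n, r, e, f, hef, hdg⟩ := hY
  have hG : (Fintype.card G : ℚ) ≠ 0 := by exact_mod_cast Fintype.card_ne_zero
  set w := C.up π z with hw
  have hwI : w ∈ I (X.prod Y) m := hI.pull π hz
  -- the decomposition of `w`
  let α : Fin n → C.A X := fun s => C.push (fst X Y) (C.pull (snd X Y) (e s) * w)
  have hwd : w = ∑ s, C.ext (α s) (f s) := by
    have h1 : C.comp w (dg C Y) = w := comp_dg C w
    rw [hdg, comp_sum] at h1
    rw [← h1]
    exact Finset.sum_congr rfl fun s _ => comp_ext _ _ _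
  -- the decomposition of the classes on `Y`
  have hyd : ∀ y : C.A Y, y = ∑ t, C.act (C.ext (e t) (f t)) y := by
    intro y
    have h1 : C.act (dg C Y) y = y := act_dg C y
    rw [hdg, act_sum] at h1
    exact h1.symm
  have hαI : ∀ s, (r s ≤ m ∧ α s ∈ I X (m - r s)) ∨ α s = 0 := by
    intro s
    obtain ⟨h1, h2, h3⟩ := hef s
    by_cases hs : r s ≤ m
    · left
      refine ⟨hs, ?_⟩
      have h4 : C.Deg ((Y.dim - r s : ℕ) : ℤ) (C.up (snd X Y) (e s)) := by
        rw [Nat.cast_sub h1]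
        exact C.pull_mem _ h3
      have h5 := hI.push (fst X Y) (i := m + (Y.dim - r s)) (j := m - r s)
        (by rw [dim_prod]; omega) (hI.mul hwI h4)
      have e1 : C.mul w (C.up (snd X Y) (e s)) = C.pull (snd X Y) (e s) * w := ch_comm C _ _
      rw [e1] at h5
      exact h5
    · right
      have h4 := C.push_mem (fst X Y) (C.mul_mem (C.pull_mem (snd X Y) h3) (hI.le _ _ hwI))
      have e1 : (Y.dim : ℤ) - r s + m + 1 * ((X.dim : ℤ) - (X.prod Y).dim) = m - r s := by
        rw [dim_prod]; push_cast; ring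
      rw [e1, C.gr_neg X _ (by omega)] at h4
      exact (Submodule.mem_bot ℚ).1 h4
  have hst : ∀ s t, ∃ q : G → ℚ, (∀ g, HasDegree C (e t * C.up (σ.hom g) (f s)) (q g)) ∧
      C.ext (∑ g, q g • C.up (ρ.hom g) (α s)) (f t) ∈ J (X.prod Y) m := by
    intro s t
    have hd : ∀ g, C.Deg (((Y.dim : ℤ) - r t) + r s) (e t * C.up (σ.hom g) (f s)) := fun g =>
      C.mul_mem (hef t).2.2 (C.pull_mem _ (hef s).2.1)
    by_cases hrs : r s = r t
    · have hd' : ∀ g, ∃ q, HasDegree C (e t * C.up (σ.hom g) (f s)) q := fun g => by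
        refine exists_hasDegree (C := C) ?_
        have := hd g
        rwa [hrs, sub_add_cancel] at this
      choose q hq using hd'
      refine ⟨q, hq, ?_⟩
      rcases hαI s with ⟨h1, h2⟩ | h1
      · have h3 : ∑ g, q g • C.up (ρ.hom g) (α s) ∈ J X (m - r s) := by
          refine h (m - r s) (r s) (by omega) (α s) h2 q ⟨f s, e t, (hef s).2.1, ?_, fun g => ?_⟩
          · rw [hrs]; exact (hef t).2.2
          · have := hq g
            rwa [ch_comm C] at this
        have h4 : C.Deg (r s) (f t) := by rw [hrs]; exact (hef t).2.1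
        have h5 := ext_mem_fam hJ h3 h4
        rwa [Nat.sub_add_cancel h1] at h5
      · simp only [h1, TheoryData.up, map_zero, smul_zero, Finset.sum_const_zero, C.ext_zero_left]
        exact Submodule.zero_mem _
    · refine ⟨fun _ => 0, fun g => hasDegree_neq (hd g) (by omega), ?_⟩
      simp only [zero_smul, Finset.sum_const_zero, C.ext_zero_left]
      exact Submodule.zero_mem _
  have hs0 : ∀ s, ∑ g, C.ext (C.up (ρ.hom g) (α s)) (C.up (σ.hom g) (f s)) ∈
      J (X.prod Y) m := by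
    intro s
    choose q hq hq0 using hst s
    have h1 : ∀ g, C.ext (C.up (ρ.hom g) (α s)) (C.up (σ.hom g) (f s)) =
        ∑ t, C.ext (q t g • C.up (ρ.hom g) (α s)) (f t) := by
      intro g
      conv_lhs => rw [hyd (C.up (σ.hom g) (f s))]
      rw [TheoryData.ext, map_sum, Finset.mul_sum]
      refine Finset.sum_congr rfl fun t _ => ?_
      rw [act_ext' (hq t g), TheoryData.ext, map_smul, map_smul, mul_smul_comm, smul_mul_assoc]
    have h2 : ∑ g, C.ext (C.up (ρ.hom g) (α s)) (C.up (σ.hom g) (f s)) =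
        ∑ t, C.ext (∑ g, q t g • C.up (ρ.hom g) (α s)) (f t) := by
      calc ∑ g, C.ext (C.up (ρ.hom g) (α s)) (C.up (σ.hom g) (f s))
          = ∑ g, ∑ t, C.ext (q t g • C.up (ρ.hom g) (α s)) (f t) :=
            Finset.sum_congr rfl fun g _ => h1 g
        _ = ∑ t, ∑ g, C.ext (q t g • C.up (ρ.hom g) (α s)) (f t) := Finset.sum_comm
        _ = ∑ t, C.ext (∑ g, q t g • C.up (ρ.hom g) (α s)) (f t) := by
            refine Finset.sum_congr rfl fun t _ => ?_
            simp only [TheoryData.ext, map_sum, Finset.sum_mul]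
    rw [h2]
    exact Submodule.sum_mem _ fun t _ => hq0 t
  have hGw : (Fintype.card G : ℚ) • w ∈ J (X.prod Y) m := by
    have h1 := hπ.up_down w
    have h2 : C.down π w = (Fintype.card G : ℚ) • z := hπ.down_up z
    rw [h2] at h1
    have h3 : C.up π ((Fintype.card G : ℚ) • z) = (Fintype.card G : ℚ) • w := map_smul _ _ _
    rw [h3] at h1
    rw [h1]
    have h4 : ∑ g, C.up (bi ρ σ g) w =
        ∑ s, ∑ g, C.ext (C.up (ρ.hom g) (α s)) (C.up (σ.hom g) (f s)) := by
      calc ∑ g, C.up (bi ρ σ g) w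
          = ∑ g, ∑ s, C.ext (C.up (ρ.hom g) (α s)) (C.up (σ.hom g) (f s)) := by
            refine Finset.sum_congr rfl fun g _ => ?_
            conv_lhs => rw [hwd]
            rw [TheoryData.up, map_sum]
            exact Finset.sum_congr rfl fun s _ => pull_ext C _ _ _ _
        _ = ∑ s, ∑ g, C.ext (C.up (ρ.hom g) (α s)) (C.up (σ.hom g) (f s)) := Finset.sum_comm
    rw [h4]
    exact Submodule.sum_mem _ fun s _ => hs0 s
  have hw0 : w ∈ J (X.prod Y) m := (Submodule.smul_mem_iff _ hG).1 hGw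
  have h4 : C.down π w = (Fintype.card G : ℚ) • z := hπ.down_up z
  have h5 : C.down π w ∈ J Z m := hJ.push π (by rw [hπ.dim_eq]) hw0
  rw [h4] at h5
  exact (Submodule.smul_mem_iff _ hG).1 h5

lemma contains_of_quotient {ρ : GAct G X} {σ : GAct G Y} {π : X.prod Y ⟶ Z}
    (hπ : IsQuotient C ρ σ π) : ContainsInvariants C ρ σ Z := by
  refine ⟨C.graph π, C.cograph π, ?_, ?_, fun c => ?_⟩
  · have h := C.push_mem (Obj.lift (𝟙 (X.prod Y)) π) (C.one_mem (X.prod Y))
    have e1 : (0 : ℤ) + 1 * ((((X.prod Y).prod Z).dim : ℤ) - ((X.prod Y).dim : ℤ)) =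
        (X.prod Y).dim := by
      rw [dim_prod (X.prod Y) Z, hπ.dim_eq]; push_cast; ring
    rwa [e1] at h
  · have h := C.push_mem (Obj.lift π (𝟙 (X.prod Y))) (C.one_mem (X.prod Y))
    have e1 : (0 : ℤ) + 1 * (((Z.prod (X.prod Y)).dim : ℤ) - ((X.prod Y).dim : ℤ)) = Z.dim := by
      rw [dim_prod Z (X.prod Y)]; push_cast; ring
    rwa [e1] at h
  · rw [C.act_graph, C.act_cograph]
    exact hπ.up_down c

lemma hasDegree_sum (x : G → C.A X) (q c : G → ℚ) (h : ∀ g, HasDegree C (x g) (q g)) :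
    HasDegree C (∑ g, c g • x g) (∑ g, c g * q g) := by
  intro Y
  constructor
  · rw [map_sum, map_sum, Finset.sum_smul]
    refine Finset.sum_congr rfl fun g _ => ?_
    rw [map_smul, map_smul, (h g Y).1, smul_smul]
  · rw [map_sum, map_sum, Finset.sum_smul]
    refine Finset.sum_congr rfl fun g _ => ?_
    rw [map_smul, map_smul, (h g Y).2, smul_smul]

/-- A free class gives a matrix coefficient which is the delta function at `1`. -/
lemma delta_of_free [DecidableEq G] {σ : GAct G Y} {j : ℕ} (hf : HasFreeClass C σ j) :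
    IsCoefficient C σ j (Pi.single 1 1) := by
  obtain ⟨y, hy, hind⟩ := hf
  let S : Submodule ℚ (G → ℚ) :=
    { carrier := {q | ∃ y' : C.A Y, C.Deg ((Y.dim : ℤ) - j) y' ∧
        ∀ g, HasDegree C (C.mul (C.up (σ.hom g) y) y') (q g)}
      zero_mem' := ⟨0, Submodule.zero_mem _, fun g => by
        have e : C.mul (C.up (σ.hom g) y) 0 = 0 := mul_zero _
        rw [e]
        exact hasDegree_zero (C := C) (X := Y)⟩
      add_mem' := by
        rintro q q' ⟨y', h1, h2⟩ ⟨y'', h3, h4⟩
        refine ⟨y' + y'', Submodule.add_mem _ h1 h3, fun g => ?_⟩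
        have e : C.mul (C.up (σ.hom g) y) (y' + y'') =
            C.mul (C.up (σ.hom g) y) y' + C.mul (C.up (σ.hom g) y) y'' := mul_add _ _ _
        rw [e]
        exact Pool.Agent.TH829.Prime.HasDegree.add (h2 g) (h4 g)
      smul_mem' := by
        rintro r q ⟨y', h1, h2⟩
        refine ⟨r • y', Submodule.smul_mem _ _ h1, fun g => ?_⟩
        have e : C.mul (C.up (σ.hom g) y) (r • y') = r • C.mul (C.up (σ.hom g) y) y' :=
          mul_smul_comm _ _ _
        rw [e]
        exact Pool.Agent.TH829.Prime.HasDegree.smul r (h2 g) }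
  have hS : S = ⊤ := by
    by_contra hne
    obtain ⟨φ, hφ, hker⟩ := Submodule.exists_le_ker_of_lt_top S (lt_top_iff_ne_top.2 hne)
    have hsum : ∀ q : G → ℚ, φ q = ∑ g, φ (Pi.single g 1) * q g := by
      intro q
      conv_lhs => rw [← Finset.univ_sum_single q]
      rw [map_sum]
      refine Finset.sum_congr rfl fun g _ => ?_
      have e : (Pi.single g (q g) : G → ℚ) = q g • Pi.single g (1 : ℚ) := by
        rw [← Pi.single_smul, smul_eq_mul, mul_one]
      rw [e, map_smul, smul_eq_mul, mul_comm]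
    have h0 : (fun g => φ (Pi.single g 1)) = 0 := by
      refine hind _ fun y' hy' => ?_
      have hd : ∀ g, ∃ q, HasDegree C (C.up (σ.hom g) y * y') q := fun g => by
        refine exists_hasDegree (C := C) ?_
        have := C.mul_mem (C.pull_mem (σ.hom g) hy) hy'
        rwa [add_sub_cancel] at this
      choose q hq using hd
      have h1 : φ q = 0 := hker (show q ∈ S from ⟨y', hy', hq⟩)
      have h2 := hasDegree_sum (fun g => C.up (σ.hom g) y * y') q
        (fun g => φ (Pi.single g 1)) hq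
      rw [← hsum q, h1] at h2
      have e : C.mul (∑ g, φ (Pi.single g 1) • C.up (σ.hom g) y) y' =
          ∑ g, φ (Pi.single g 1) • (C.up (σ.hom g) y * y') := by
        rw [TheoryData.mul, Finset.sum_mul]
        exact Finset.sum_congr rfl fun g _ => smul_mul_assoc _ _ _
      rw [e]
      exact h2
    refine hφ (LinearMap.ext fun q => ?_)
    rw [hsum q]
    simp only [LinearMap.zero_apply]
    refine Finset.sum_eq_zero fun g _ => ?_
    have h1 := congrFun h0 g
    simp only [Pi.zero_apply] at h1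
    rw [h1, zero_mul]
  obtain ⟨y', h1, h2⟩ : (Pi.single 1 1 : G → ℚ) ∈ S := by rw [hS]; exact Submodule.mem_top
  exact ⟨y, y', hy, h1, h2⟩

/-- Exchange of the factors. -/
lemma ContainsInvariants.symm {ρ : GAct G X} {σ : GAct G Y} (h : ContainsInvariants C ρ σ Z) :
    ContainsInvariants C σ ρ Z := by
  obtain ⟨a, b, ha, hb, hab⟩ := h
  have hsw : C.graph (sw Y X) ∈ C.gr _ ((Y.prod X).dim + 0) := by
    have h := C.push_mem (Obj.lift (𝟙 (Y.prod X)) (sw Y X)) (C.one_mem (Y.prod X))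
    have e1 : (0 : ℤ) + 1 * ((((Y.prod X).prod (X.prod Y)).dim : ℤ) - ((Y.prod X).dim : ℤ)) =
        (Y.prod X).dim + 0 := by
      rw [dim_prod (Y.prod X), dim_prod X Y, dim_prod Y X]; push_cast; ring
    rwa [e1] at h
  have hsw' : C.graph (sw X Y) ∈ C.gr _ ((X.prod Y).dim + 0) := by
    have h := C.push_mem (Obj.lift (𝟙 (X.prod Y)) (sw X Y)) (C.one_mem (X.prod Y))
    have e1 : (0 : ℤ) + 1 * ((((X.prod Y).prod (Y.prod X)).dim : ℤ) - ((X.prod Y).dim : ℤ)) =
        (X.prod Y).dim + 0 := by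
      rw [dim_prod (X.prod Y), dim_prod X Y, dim_prod Y X]; push_cast; ring
    rwa [e1] at h
  refine ⟨C.comp (C.graph (sw Y X)) a, C.comp b (C.graph (sw X Y)), ?_, ?_, fun c => ?_⟩
  · have h := comp_mem C (e := 0) (e' := 0) hsw (by rw [add_zero]; exact ha)
    rwa [add_zero, add_zero] at h
  · have h := comp_mem C (e := 0) (e' := 0) (by rw [add_zero]; exact hb) hsw'
    rwa [add_zero, add_zero] at h
  · rw [C.act_comp, C.act_comp, C.act_graph, C.act_graph, hab, map_sum]
    refine Finset.sum_congr rfl fun g _ => ?_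
    have e1 : C.push (sw Y X) c = C.pull (sw X Y) c :=
      (pull_iso C (sw X Y) (sw Y X) sw_sw sw_sw c).symm
    have e2 : bi ρ σ g ≫ sw X Y = sw X Y ≫ bi σ ρ g := by
      apply prod_ext <;> simp [bi, sw, comp_lift]
    have e3 : C.up (bi ρ σ g) (C.pull (sw X Y) c) = C.pull (sw X Y) (C.up (bi σ ρ g) c) := by
      rw [TheoryData.up, TheoryData.up, ← C.pull_comp, ← C.pull_comp, e2]
    rw [e1, e3, push_pull_iso C (sw X Y) (sw Y X) sw_sw sw_sw]

end gen

section AJ

variable {K : Type w} [Field K] {H : WeilTheoryData.{u, v, w} C K} {T : AJData.{u, v, w'} C}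
  {K' : Type x} [Field K'] {H' : WeilTheoryData.{u, v, x} C K'} {T' : AJData.{u, v, x'} C}

variable [hC : IsChowProj C]

include hC

lemma sum_single [DecidableEq G] (ρ : GAct G X) (x : C.A X) :
    ∑ g, (Pi.single 1 1 : G → ℚ) g • C.up (ρ.hom g) x = x := by
  rw [Finset.sum_eq_single 1 (fun g _ hg => by rw [Pi.single_eq_of_ne hg, zero_smul])
    (fun hg => absurd (Finset.mem_univ _) hg), ρ.hom_one, Pi.single_eq_same, one_smul]
  exact C.pull_id x

lemma injective_of_free (hT : IsLinearAJ H T) {ρ : GAct G X} {σ : GAct G Y} {i j : ℕ}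
    (h : InjectiveOnPart H T ρ σ i j) (hf : HasFreeClass C σ j) : InjectiveIn H T X i := by
  classical
  rw [injectiveIn_iff hT]
  intro x hx
  have h3 := h x hx _ (delta_of_free hf)
  rwa [sum_single ρ] at h3

lemma kerLe_of_free {ρ : GAct G X} {σ : GAct G Y} {i j : ℕ}
    (h : KerLeOnPart H T H' T' ρ σ i j) (hf : HasFreeClass C σ j) : KerLeIn H T H' T' X i := by
  classical
  intro x hx
  have h3 := h x hx _ (delta_of_free hf)
  rwa [sum_single ρ] at h3

lemma part_of_injective (hT : IsLinearAJ H T) (ρ : GAct G X) (σ : GAct G Y) {i : ℕ} (j : ℕ)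
    (h : InjectiveIn H T X i) : InjectiveOnPart H T ρ σ i j := by
  rw [injectiveIn_iff hT] at h
  intro x hx q _
  rw [h x hx]
  simp only [TheoryData.up, map_zero, smul_zero, Finset.sum_const_zero]

lemma part_of_kerLe (hH' : H'.IsClassMap) (hT' : IsAJ H' T') (ρ : GAct G X) (σ : GAct G Y) {i : ℕ}
    (j : ℕ) (h : KerLeIn H T H' T' X i) : KerLeOnPart H T H' T' ρ σ i j := by
  intro x hx q _
  have hI := ajFam_adequate hH' hT'
  exact Submodule.sum_mem (ajFam hT'.toIsLinearAJ X i) fun g _ =>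
    Submodule.smul_mem _ _ (hI.pull _ (h x hx))

/-- The main theorem: one Abel–Jacobi map. -/
theorem aj_quotients (hH : H.IsClassMap) (hT : IsAJ H T) (ρ : GAct G X) (σ : GAct G Y) (Z : 𝒱.Obj) :
    (ContainsInvariants C ρ σ Z → ∀ i j : ℕ, InjectiveIn H T Z (i + j) →
      InjectiveOnPart H T ρ σ i j ∧ InjectiveOnPart H T σ ρ j i ∧
      (HasFreeClass C σ j → InjectiveIn H T X i)) ∧
    (∀ π : X.prod Y ⟶ Z, IsQuotient C ρ σ π → DecomposedDiagonal C Y →
      (∀ m : ℕ, InjectiveIn H T Z m ↔ ∀ i j : ℕ, i + j = m → InjectiveOnPart H T ρ σ i j) ∧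
      ((∃ j, HasFreeClass C σ j) → (Injective H T Z ↔ Injective H T X))) := by
  have hI := ajFam_adequate hH hT
  have h0 := zeroFam_adequate C
  have key : ∀ {X Y : 𝒱.Obj} {ρ : GAct G X} {σ : GAct G Y}, ContainsInvariants C ρ σ Z →
      ∀ i j : ℕ, InjectiveIn H T Z (i + j) → InjectiveOnPart H T ρ σ i j := by
    intro X Y ρ σ hZ i j h x hx q hq
    exact (Submodule.mem_bot ℚ).1 (part_of_contains hI h0 hZ (i := i) (j := j)
      (fun z hz => (Submodule.mem_bot ℚ).2
        ((injectiveIn_iff hT.toIsLinearAJ Z (i + j)).1 h z hz)) hx hq)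
  refine ⟨fun hZ i j h => ⟨key hZ i j h, key hZ.symm j i (by rwa [add_comm]), fun hf =>
    injective_of_free hT.toIsLinearAJ (key hZ i j h) hf⟩, fun π hπ hY => ?_⟩
  have hcZ := contains_of_quotient hπ
  have hiff : ∀ m : ℕ, InjectiveIn H T Z m ↔
      ∀ i j : ℕ, i + j = m → InjectiveOnPart H T ρ σ i j := by
    intro m
    constructor
    · rintro h i j rfl
      exact key hcZ i j h
    · intro h
      rw [injectiveIn_iff hT.toIsLinearAJ]
      intro z hz
      exact (Submodule.mem_bot ℚ).1 (of_parts hI h0 hπ hY (m := m) (fun i j hij x hx q hq =>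
        (Submodule.mem_bot ℚ).2 (h i j hij x hx q hq)) z hz)
  refine ⟨hiff, ?_⟩
  rintro ⟨j, hf⟩
  constructor
  · intro h i
    exact injective_of_free hT.toIsLinearAJ (key hcZ i j (h (i + j))) hf
  · intro h m
    exact (hiff m).2 fun i j _ => part_of_injective hT.toIsLinearAJ ρ σ j (h i)

/-- The main theorem: the kernels of two Abel–Jacobi maps. -/
theorem ker_quotients (hH : H.IsClassMap) (hT : IsAJ H T) (hH' : H'.IsClassMap) (hT' : IsAJ H' T')
    (ρ : GAct G X) (σ : GAct G Y) (Z : 𝒱.Obj) :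
    (ContainsInvariants C ρ σ Z → ∀ i j : ℕ, KerLeIn H T H' T' Z (i + j) →
      KerLeOnPart H T H' T' ρ σ i j ∧ KerLeOnPart H T H' T' σ ρ j i ∧
      (HasFreeClass C σ j → KerLeIn H T H' T' X i)) ∧
    (∀ π : X.prod Y ⟶ Z, IsQuotient C ρ σ π → DecomposedDiagonal C Y →
      (∀ m : ℕ, KerLeIn H T H' T' Z m ↔
        ∀ i j : ℕ, i + j = m → KerLeOnPart H T H' T' ρ σ i j) ∧
      ((∃ j, HasFreeClass C σ j) →
        ((∀ m, KerLeIn H T H' T' Z m) ↔ ∀ i, KerLeIn H T H' T' X i))) := by
  have hI := ajFam_adequate hH hT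
  have hJ := ajFam_adequate hH' hT'
  have key : ∀ {X Y : 𝒱.Obj} {ρ : GAct G X} {σ : GAct G Y}, ContainsInvariants C ρ σ Z →
      ∀ i j : ℕ, KerLeIn H T H' T' Z (i + j) → KerLeOnPart H T H' T' ρ σ i j :=
    fun hZ i j h x hx q hq => part_of_contains hI hJ hZ (i := i) (j := j) h hx hq
  refine ⟨fun hZ i j h => ⟨key hZ i j h, key hZ.symm j i (by rwa [add_comm]), fun hf =>
    kerLe_of_free (key hZ i j h) hf⟩, fun π hπ hY => ?_⟩
  have hcZ := contains_of_quotient hπ
  have hiff : ∀ m : ℕ, KerLeIn H T H' T' Z m ↔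
      ∀ i j : ℕ, i + j = m → KerLeOnPart H T H' T' ρ σ i j := by
    intro m
    constructor
    · rintro h i j rfl
      exact key hcZ i j h
    · intro h
      exact of_parts hI hJ hπ hY (m := m) h
  refine ⟨hiff, ?_⟩
  rintro ⟨j, hf⟩
  constructor
  · intro h i
    exact kerLe_of_free (key hcZ i j (h (i + j))) hf
  · intro h m
    exact (hiff m).2 fun i j _ => part_of_kerLe hH' hT' ρ σ j (h i)

end AJ

end Pool.Agent.Y112.QA
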